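import Mathlib
import Pool.Agent.TH387.EX.Core
import Pool.Agent.N388.EFW.Final
import Pool.Agent.N388.EF.TEST2

set_option autoImplicit false

/-!
# The equivalence of Q1 for 11 and for 15 points: a much shorter gap

Let `r = 11` or `r = 15` and `m ≥ 1`. For a general set `Y` of `r` points of the complex projective plane
(one nonempty open set for all degrees) the scheme `m Y` is `AH₂(d)` and the equivalence of Q1 holds in
every degree `d`, except possibly those divisible by three with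
`3 (√r - 3) / (√r + 3) ≤ d - √r m < (√r - 3) / 2`: this is the interval from `0.1503...` to `0.1583...`
for `r = 11` and from `0.3810...` to `0.4364...` for `r = 15`. In every degree, no form exceptional for
`Y` divides all elements of `[I_Y ^ (m)]_d` when this space is not zero.
-/

namespace Pool.Agent.Results.MP_8707bd_ag.EquivalenceElevenFifteen

open MvPolynomial Pool.Agent.TH387.EX

theorem result (r : ℕ) (hr : r = 11 ∨ r = 15) (m : ℕ) :
    ∃ Φ : MvPolynomial (Fin r × Fin 2) ℂ, Φ ≠ 0 ∧ ∀ Y : Fin r → Fin 2 → ℂ,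
      MvPolynomial.eval (fun ij : Fin r × Fin 2 => Y ij.1 ij.2) Φ ≠ 0 → ∀ d : ℕ,
        (¬ (3 ∣ d ∧ 3 * (√(r : ℝ) - 3) / (√(r : ℝ) + 3) ≤ (d : ℝ) - √(r : ℝ) * m ∧
            (d : ℝ) - √(r : ℝ) * m < (√(r : ℝ) - 3) / 2) → IsAH Y m d ∧ Equivalence Y m d) ∧
          (part (fat Y m) d ≠ ⊥ → ∀ F, IsExceptional Y F → ∃ G ∈ part (fat Y m) d, ¬ F ∣ G) := by
  obtain ⟨F, hF, hF'⟩ := N388.EFW.uniform N388.EF.t_TEST2 r hr m
  have hr10 : 10 ≤ r := by omega
  obtain ⟨Φ, hΦ, hΦ'⟩ := core hr10 (S := {d : ℕ | ¬ (3 ∣ d ∧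
    3 * (√(r : ℝ) - 3) / (√(r : ℝ) + 3) ≤ (d : ℝ) - √(r : ℝ) * m ∧
      (d : ℝ) - √(r : ℝ) * m < (√(r : ℝ) - 3) / 2)}) ⟨F, hF, fun P hP d hd => hF' P hP d hd⟩
  refine ⟨Φ, hΦ, fun Y hY d => ?_⟩
  obtain ⟨h1, _, h3⟩ := hΦ' Y hY
  exact ⟨fun hd => h1 d hd, h3 d⟩

end Pool.Agent.Results.MP_8707bd_ag.EquivalenceElevenFifteen
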