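import Pool.Agent.N794.DG.Fat
import Pool.Agent.N794.DG.Cov
import Pool.Agent.TH387.EX.Core

set_option autoImplicit false

/-!
# The equivalence of Q1 for random multiplicities

A random multiplicity `m` has a finitely supported distribution `μ`. `Always Q` says that all random multiplicities for which
the exponential sums `E e(θ m)` at certain finitely many irrational `θ` and the probability of small values are small have
the property `Q`.

**Theorem.** (1) For every number `r ≥ 10` of points and every `δ > 0`, with a probability of at least `1 - bad r - δ` the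
equivalence of Q1 holds for a general set `Y` of `r` points and the multiplicity `m` in EVERY degree `d`, and `m Y` is
`AH₂(d)`.

(2) With a probability of at least `10 ^ (-65)` this holds simultaneously for EVERY number `r ≥ 10` of points and EVERY
degree.

(3) `bad r < 1`, with small values for `r ≤ 15`.

(4) (`Covers`) These bounds hold in particular for all large terms of all sequences of random multiplicities whose
exponential sums at the irrational frequencies tend to zero; for the random multiplicities `c₀ + κ v` where `v` has `k ≥ k₀`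
independent digits in a base `b` none of which is almost constant; and for the random members of families of residues with
small Fourier coefficients, among them very thin ones: subgroups of order `≥ 5 p ^ (3/8 + δ)` modulo a prime `p`, and the
quotients `j / r` modulo `p` with `r`, `j` below powers of `log p`.
-/

namespace Pool.Agent.Results.MP_8707bd_ag.EquivalenceRandomMultiplicities

open MvPolynomial Pool.Agent.TH387.EX Pool.Agent.N794.DG

/-- For a general set `Y` of `r` points (one nonempty open set) and every degree `d`: the scheme `m Y`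
is `AH₂(d)`, the equivalence of Q1 holds, and no exceptional form divides all elements of
`[I_Y ^ (m)]_d` if this space is not zero. -/
def Settled (r m : ℕ) : Prop :=
  ∃ Φ : MvPolynomial (Fin r × Fin 2) ℂ, Φ ≠ 0 ∧ ∀ Y : Fin r → Fin 2 → ℂ,
    MvPolynomial.eval (fun ij : Fin r × Fin 2 => Y ij.1 ij.2) Φ ≠ 0 →
      ∀ d : ℕ, IsAH Y m d ∧ Equivalence Y m d ∧
        (part (fat Y m) d ≠ ⊥ → ∀ F, IsExceptional Y F → ∃ G ∈ part (fat Y m) d, ¬ F ∣ G)

/-- The multiplicity `m ≥ 1` is settled for every number `r ≥ 10` of points. -/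
def Holds (m : ℕ) : Prop := 1 ≤ m ∧ ∀ r : ℕ, 10 ≤ r → Settled r m

open Classical in
/-- The bound for the probability of the bad multiplicities for `r` points. -/
noncomputable def bad (r : ℕ) : ℝ :=
  if 37 ≤ r ∨ r = 13 ∨ r = 21 ∨ IsSquare r then 0
  else if r = 11 ∨ r = 15 then (√(r : ℝ) - 3) / 6
  else (min (√(r : ℝ) - 3) (2 / 3 + 9 / (4 * √(r : ℝ))) +
    min (√(r : ℝ) - 3) (2 / 3 + 1 / (4 * √(r : ℝ)))) / 2

theorem settled_of {r m : ℕ} (hr : 10 ≤ r) (h : Pool.Agent.N141.SG.Ex r m) : Settled r m := by
  obtain ⟨F, hF, hF'⟩ := h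
  obtain ⟨Φ, hΦ, hΦ'⟩ := core hr (S := Set.univ) ⟨F, hF, fun P hP d _ => hF' P hP d⟩
  refine ⟨Φ, hΦ, fun Y hY d => ?_⟩
  obtain ⟨h1, _, h3⟩ := hΦ' Y hY
  exact ⟨(h1 d (Set.mem_univ d)).1, (h1 d (Set.mem_univ d)).2, h3 d⟩

theorem holds_of {m : ℕ} (hm : 1 ≤ m) (h : Pool.Agent.N141.SG.Tgt (m : ℕ)) : Holds m :=
  ⟨hm, fun _ hr => settled_of hr (Pool.Agent.N141.SG.every h hm hr)⟩

/-- **The equivalence of Q1 for random multiplicities.** -/
theorem result :
    -- one number of points
    (∀ r : ℕ, 10 ≤ r → ∀ δ : ℝ, 0 < δ → Always fun μ => meas μ (fun m => ¬ Settled r m) ≤ bad r + δ) ∧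
    -- all numbers of points
    (Always fun μ => 1 / 10 ^ 65 ≤ meas μ Holds) ∧
    (∀ r : ℕ, 10 ≤ r → bad r < 1) ∧
    (bad 10 < 0.163 ∧ bad 11 < 0.053 ∧ bad 12 < 0.465 ∧ bad 14 < 0.738 ∧ bad 15 < 0.146) ∧
    Covers := by
  refine ⟨fun r hr δ hδ => ?_, ?_, fun r hr => Pool.Agent.N141.SG.badU_lt hr, Pool.Agent.N141.SG.badU_vals, covers⟩
  · exact (always_one hr hδ).mono fun μ hμ h => (meas_mono hμ fun m hm h1 => hm (settled_of hr h1)).trans h
  · exact always_tgt.mono fun μ hμ h => h.trans (meas_mono hμ fun m hm => holds_of hm.1 hm.2)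

end Pool.Agent.Results.MP_8707bd_ag.EquivalenceRandomMultiplicities
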