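import Mathlib
import Pool.Agent.N141.SG.One
import Pool.Agent.TH387.EX.Core

set_option autoImplicit false

/-!
# The equivalence of Q1 for all numbers `r ≥ 10` of points and all degrees at once: thin sequences

Let `m = ⌊P(t)⌋`, where `P` is a generalised polynomial with a non-integral leading exponent. For a
positive proportion of the integers `t`, and of the PRIMES `t`, the equivalence of Q1 holds for the
multiplicity `m` simultaneously for EVERY number `r ≥ 10` of points and EVERY degree `d`, and `m Y` is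
`AH₂(d)`.
-/

namespace Pool.Agent.Results.MP_8707bd_ag.EquivalenceThinSequences

open MvPolynomial Filter Pool.Agent.TH387.EX

/-- For a general set `Y` of `r` points (one nonempty open set) and every degree `d`: the scheme `m Y`
is `AH₂(d)`, the equivalence of Q1 holds, and no exceptional form divides all elements of
`[I_Y ^ (m)]_d` if this space is not zero. -/
def Settled (r m : ℕ) : Prop :=
  ∃ Φ : MvPolynomial (Fin r × Fin 2) ℂ, Φ ≠ 0 ∧ ∀ Y : Fin r → Fin 2 → ℂ,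
    MvPolynomial.eval (fun ij : Fin r × Fin 2 => Y ij.1 ij.2) Φ ≠ 0 →
      ∀ d : ℕ, IsAH Y m d ∧ Equivalence Y m d ∧
        (part (fat Y m) d ≠ ⊥ → ∀ F, IsExceptional Y F → ∃ G ∈ part (fat Y m) d, ¬ F ∣ G)

/-- The multiplicity `m ≥ 1` is settled for every number `r ≥ 10` of points. -/
def Holds (m : ℕ) : Prop := 1 ≤ m ∧ ∀ r : ℕ, 10 ≤ r → Settled r m

/-- The coefficients `a` and the exponents `F` of a generalised polynomial `∑ x ∈ F, a x * t ^ x` with
leading exponent `c > 0`, not an integer, and positive leading coefficient. -/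
def Adm (F : Finset ℝ) (a : ℝ → ℝ) (c : ℝ) : Prop :=
  c ∈ F ∧ (∀ x ∈ F, x ≤ c) ∧ 0 < c ∧ (∀ k : ℕ, c ≠ k) ∧ 0 < a c

/-- The members `⌊∑ x ∈ F, a x * t ^ x⌋` of the thin sequence. -/
noncomputable def mult (F : Finset ℝ) (a : ℝ → ℝ) (t : ℕ) : ℕ := ⌊∑ x ∈ F, a x * (t : ℝ) ^ x⌋₊

theorem settled_of {r m : ℕ} (hr : 10 ≤ r) (h : Pool.Agent.N141.SG.Ex r m) : Settled r m := by
  obtain ⟨F, hF, hF'⟩ := h
  obtain ⟨Φ, hΦ, hΦ'⟩ := core hr (S := Set.univ) ⟨F, hF, fun P hP d _ => hF' P hP d⟩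
  refine ⟨Φ, hΦ, fun Y hY d => ?_⟩
  obtain ⟨h1, _, h3⟩ := hΦ' Y hY
  exact ⟨(h1 d (Set.mem_univ d)).1, (h1 d (Set.mem_univ d)).2, h3 d⟩

theorem holds_of {m : ℕ} (hm : 1 ≤ m) (h : Pool.Agent.N141.SG.Tgt (m : ℕ)) : Holds m :=
  ⟨hm, fun _ hr => settled_of hr (Pool.Agent.N141.SG.every h hm hr)⟩

/-- counting in subsets -/
theorem ncard_le {s : Finset ℕ} {p q : ℕ → Prop} (h : ∀ n ∈ s, p n → q n) :
    ({n : ℕ | n ∈ s ∧ p n}.ncard : ℝ) ≤ ({n : ℕ | n ∈ s ∧ q n}.ncard : ℝ) := by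
  have h1 : {n : ℕ | n ∈ s ∧ p n} ⊆ {n : ℕ | n ∈ s ∧ q n} := fun n hn => ⟨hn.1, h n hn.1 hn.2⟩
  exact_mod_cast Set.ncard_le_ncard h1 ((Finset.finite_toSet s).subset fun n hn => hn.1)

/-- **The equivalence of Q1 for all numbers of points and all degrees at once, along thin sequences
of multiplicities.** -/
theorem result : ∀ (F : Finset ℝ) (a : ℝ → ℝ) (c : ℝ), Adm F a c → ∀ᶠ N : ℕ in atTop,
    1 / 10000 ^ 22 * ((Finset.Ioc N (2 * N)).card : ℝ) ≤
      ({t : ℕ | t ∈ Finset.Ioc N (2 * N) ∧ Holds (mult F a t)}.ncard : ℝ) ∧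
    1 / 10000 ^ 22 * (((Finset.Ioc N (2 * N)).filter Nat.Prime).card : ℝ) ≤
      ({t : ℕ | t ∈ (Finset.Ioc N (2 * N)).filter Nat.Prime ∧ Holds (mult F a t)}.ncard : ℝ) := by
  intro F a c h
  filter_upwards [Pool.Agent.N141.SG.tgt_thin (F := F) (a := a) (c := c) h] with N hN
  exact ⟨hN.1.trans (ncard_le fun t _ ht => holds_of ht.1 ht.2),
    hN.2.trans (ncard_le fun t _ ht => holds_of ht.1 ht.2)⟩

end Pool.Agent.Results.MP_8707bd_ag.EquivalenceThinSequences
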